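import Pool.Agent.Lib_helper52.LQ.Defs
import Pool.Agent.Lib_helper37.LQ.R0
import Pool.Agent.Lib_helper16.LQ.R2
import Pool.Agent.Lib_helper50.LQ.LA
import Pool.Agent.Lib_helper58.LQ.LB
import Pool.Agent.Lib_helper19.LQ.LD
import Pool.Agent.Lib_helper86.LQ.LC
import Pool.Agent.Lib_helper58.LQ.LS

set_option autoImplicit false

namespace Pool.Agent.LQ

open MeasureTheory ENNReal Set Filter Topology Pool.Agent.EPS Pool.Agent.YG

variable {d : ℕ}

theorem lf_int (μ : Measure (Eu d)) [IsProbabilityMeasure μ] {f : Eu d → ℝ} (hf : Bm f) :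
    Integrable f μ := by
  obtain ⟨C, hC⟩ := hf.2
  exact Integrable.of_bound hf.1.aestronglyMeasurable C
    (Eventually.of_forall fun x => by rw [Real.norm_eq_abs]; exact hC x)

theorem lf_mul {f g : Eu d → ℝ} (hf : Bm f) (hg : Bm g) : Bm (fun x => f x * g x) := by
  obtain ⟨C, hC⟩ := hf.2
  obtain ⟨D, hD⟩ := hg.2
  refine ⟨hf.1.mul hg.1, C * D, fun x => ?_⟩
  rw [abs_mul]
  exact mul_le_mul (hC x) (hD x) (abs_nonneg _) ((abs_nonneg _).trans (hC x))

theorem lf_comb {f g : Eu d → ℝ} (hf : Bm f) (hg : Bm g) (a b : ℝ) :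
    Bm (fun x => a * f x + b * g x) := by
  obtain ⟨C, hC⟩ := hf.2
  obtain ⟨D, hD⟩ := hg.2
  refine ⟨(hf.1.const_mul a).add (hg.1.const_mul b), |a| * C + |b| * D, fun x => ?_⟩
  calc |a * f x + b * g x| ≤ |a * f x| + |b * g x| := abs_add_le _ _
    _ = |a| * |f x| + |b| * |g x| := by rw [abs_mul, abs_mul]
    _ ≤ _ := add_le_add (mul_le_mul_of_nonneg_left (hC x) (abs_nonneg _))
      (mul_le_mul_of_nonneg_left (hD x) (abs_nonneg _))

theorem lf_rg {α γ : Measure (Eu d)} {k κ : Eu d → ℝ} (hk : Bm k) (h : Rg α γ k κ) : Bm κ := by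
  obtain ⟨C, hC⟩ := hk.2
  exact ⟨h.meas, C, h.bd C hC⟩

theorem lf_sq (μ : Measure (Eu d)) [IsProbabilityMeasure μ] {f g : Eu d → ℝ} (hf : Bm f)
    (hg : Bm g) (a b : ℝ) : ∫ x, (a * f x + b * g x) ^ 2 ∂μ =
      a ^ 2 * ∫ x, f x * f x ∂μ + 2 * a * b * ∫ x, f x * g x ∂μ +
        b ^ 2 * ∫ x, g x * g x ∂μ := by
  have e : (fun x => (a * f x + b * g x) ^ 2) = fun x => (a ^ 2 * (f x * f x) +
      2 * a * b * (f x * g x)) + b ^ 2 * (g x * g x) := by
    funext x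
    ring
  have i1 := (lf_int μ (lf_mul hf hf)).const_mul (a ^ 2)
  have i2 := (lf_int μ (lf_mul hf hg)).const_mul (2 * a * b)
  have i3 := (lf_int μ (lf_mul hg hg)).const_mul (b ^ 2)
  have i4 : Integrable (fun x => a ^ 2 * (f x * f x) + 2 * a * b * (f x * g x)) μ := i1.add i2
  rw [e, integral_add i4 i3, integral_add i1 i2]
  simp only [integral_const_mul]

/-- `k = k'` almost everywhere gives the same second moment of the conditional expectation -/
theorem lf_congr (α γ : Measure (Eu d)) [IsProbabilityMeasure α] [IsProbabilityMeasure γ]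
    (k k' κ κ' : Eu d → ℝ) (hk : Bm k) (hk' : Bm k') (h : Rg α γ k κ) (h' : Rg α γ k' κ')
    (he : ∀ᵐ z ∂γ, k z = k' z) :
    ∫ u, κ u ^ 2 ∂(α.conv γ) = ∫ u, κ' u ^ 2 ∂(α.conv γ) := by
  have key : ∀ g : Eu d → ℝ, Bm g → ∫ u, κ u * g u ∂(α.conv γ) = ∫ u, κ' u * g u ∂(α.conv γ) := by
    intro g hg
    rw [rg_adj α γ k κ g hk h hg, rg_adj α γ k' κ' g hk' h' hg]
    refine integral_congr_ae ?_
    filter_upwards [he] with z hz
    rw [hz]
  have a1 := key κ (lf_rg hk h)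
  have a2 := key κ' (lf_rg hk' h')
  have e1 : (fun u => κ u ^ 2) = fun u => κ u * κ u := by funext u; ring
  have e2 : (fun u => κ' u ^ 2) = fun u => κ' u * κ' u := by funext u; ring
  have e3 : (fun u => κ' u * κ u) = fun u => κ u * κ' u := by funext u; ring
  rw [e1, e2, a1, e3, a2]

theorem lf_ad (β : Measure (Eu d)) [IsProbabilityMeasure β] {f g : Eu d → ℝ} (hf : Bm f)
    (hg : Bm g) (a b : ℝ) (z : Eu d) :
    ad β (fun v => a * f v + b * g v) z = a * ad β f z + b * ad β g z := by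
  unfold ad
  have h1 : Bm (fun y => f (y + z)) :=
    ⟨hf.1.comp (measurable_id.add_const z), hf.2.choose, fun x => hf.2.choose_spec _⟩
  have h2 : Bm (fun y => g (y + z)) :=
    ⟨hg.1.comp (measurable_id.add_const z), hg.2.choose, fun x => hg.2.choose_spec _⟩
  rw [integral_add ((lf_int β h1).const_mul a) ((lf_int β h2).const_mul b)]
  simp only [integral_const_mul]

/-- almost everywhere equal functions have almost everywhere equal `ad` -/
theorem lf_adc (β γ : Measure (Eu d)) [IsProbabilityMeasure β] [IsProbabilityMeasure γ]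
    {f g : Eu d → ℝ} (hf : Bm f) (hg : Bm g) (h : ∀ᵐ v ∂(β.conv γ), f v = g v) :
    ∀ᵐ z ∂γ, ad β f z = ad β g z := by
  have hb := lf_comb hf hg 1 (-1)
  have h1 := (ad_int β γ _ hb).2
  have h2 : ∫ u, (1 * f u + -1 * g u) ^ 2 ∂(β.conv γ) = 0 := by
    have : ∫ u, (1 * f u + -1 * g u) ^ 2 ∂(β.conv γ) = ∫ _u, (0 : ℝ) ∂(β.conv γ) := by
      refine integral_congr_ae ?_
      filter_upwards [h] with v hv
      rw [hv]
      ring
    rw [this, integral_zero]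
  rw [h2] at h1
  obtain ⟨C, hC⟩ := hb.2
  obtain ⟨m1, m2⟩ := ad_bm β _ hb.1 C hC
  have hs : Bm (fun z => ad β (fun v => 1 * f v + -1 * g v) z ^ 2) := by
    have := lf_mul (⟨m1, C, m2⟩ : Bm _) (⟨m1, C, m2⟩ : Bm (ad β (fun v => 1 * f v + -1 * g v)))
    refine ⟨?_, ?_⟩
    · have e := this.1
      simp only [← sq] at e
      exact e
    · obtain ⟨D, hD⟩ := this.2
      refine ⟨D, fun x => ?_⟩
      show |ad β (fun v => 1 * f v + -1 * g v) x ^ 2| ≤ D
      rw [sq]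
      exact hD x
  have h3 : ∫ z, ad β (fun v => 1 * f v + -1 * g v) z ^ 2 ∂γ = 0 :=
    le_antisymm h1 (integral_nonneg fun z => sq_nonneg _)
  rw [integral_eq_zero_iff_of_nonneg (fun z => sq_nonneg _) (lf_int γ hs)] at h3
  filter_upwards [h3] with z hz
  have h4 : ad β (fun v => 1 * f v + -1 * g v) z = 0 := by
    have : ad β (fun v => 1 * f v + -1 * g v) z ^ 2 = 0 := hz
    exact pow_eq_zero_iff (two_ne_zero) |>.1 this
  rw [lf_ad β hf hg] at h4
  linarith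

/-- the choice of `n` and `e` -/
theorem lf_choice (θ M δ : ℝ) (h0 : 0 < θ) (h1 : θ < 1) (hM : 0 ≤ M) (hδ : 0 < δ) :
    ∃ (n : ℕ) (e : ℝ), 0 < e ∧
      θ ^ n * M + n * (θ ^ n)⁻¹ * (Real.sqrt (2 * M * e + e ^ 2) + e) ≤ θ * δ := by
  obtain ⟨n, hn⟩ := exists_pow_lt_of_lt_one (show (0 : ℝ) < θ * δ / (2 * (M + 1)) by positivity) h1
  have hn2 : θ ^ n * M ≤ θ * δ / 2 := by
    have h2 : θ ^ n * (2 * (M + 1)) ≤ θ * δ := by
      rw [lt_div_iff₀ (by positivity)] at hn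
      exact hn.le
    have h3 : 0 ≤ θ ^ n := by positivity
    nlinarith
  set K : ℝ := n * (θ ^ n)⁻¹ + 1 with hK
  have hK0 : 0 < K := by rw [hK]; positivity
  set ω : ℝ := θ * δ / (2 * K) with hω
  have hω0 : 0 < ω := by rw [hω]; positivity
  set e : ℝ := min (ω / 4) (ω ^ 2 / (16 * (M + 1))) with he
  have he0 : 0 < e := lt_min (by positivity) (by positivity)
  refine ⟨n, e, he0, ?_⟩
  have e1 : e ≤ ω / 4 := min_le_left _ _
  have e2 : e * (16 * (M + 1)) ≤ ω ^ 2 := by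
    have : e ≤ ω ^ 2 / (16 * (M + 1)) := min_le_right _ _
    rwa [le_div_iff₀ (by positivity)] at this
  have e3 : 2 * M * e + e ^ 2 ≤ (ω / 2) ^ 2 := by nlinarith
  have e4 : Real.sqrt (2 * M * e + e ^ 2) ≤ ω / 2 := by
    have := Real.sqrt_le_sqrt e3
    rwa [Real.sqrt_sq (by positivity)] at this
  have e5 : Real.sqrt (2 * M * e + e ^ 2) + e ≤ ω := by linarith
  have e6 : n * (θ ^ n)⁻¹ * (Real.sqrt (2 * M * e + e ^ 2) + e) ≤ K * ω := by
    have h1' : (n : ℝ) * (θ ^ n)⁻¹ ≤ K := by rw [hK]; linarith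
    exact mul_le_mul h1' e5 (add_nonneg (Real.sqrt_nonneg _) he0.le) hK0.le
  have e7 : K * ω = θ * δ / 2 := by
    rw [hω]
    field_simp
  linarith

theorem l_final (θ L δ : ℝ) (h0 : 0 < θ) (h1 : θ < 1) (hL : 0 < L) (hδ : 0 < δ) :
    ∃ e > 0, ∀ (α β γ : Measure (Eu d)), IsProbabilityMeasure α → Sp L β → Sp L γ →
      ∀ j : Fin d,
      (∀ k κU κV κW : Eu d → ℝ, Measurable k → (∀ z, |k z| ≤ 4 * L) → ∫ z, k z ∂γ = 0 →
        Rg α γ k κU → Rg β γ k κV → Rg (α.conv β) γ k κW →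
        ∫ u, κU u ^ 2 ∂(α.conv γ) + ∫ v, κV v ^ 2 ∂(β.conv γ) ≤
          θ * (∫ z, k z ^ 2 ∂γ + ∫ w, κW w ^ 2 ∂((α.conv β).conv γ)) + e) →
      ∀ lV lW : Eu d → ℝ, Rg γ β (co L β j) lV → Rg (α.conv γ) β (co L β j) lW →
        (∫ y, co L β j y ^ 2 ∂β) - ∫ v, lV v ^ 2 ∂(γ.conv β) ≤
          θ * ((∫ y, co L β j y ^ 2 ∂β) - ∫ w, lW w ^ 2 ∂((α.conv γ).conv β)) + δ := by
  obtain ⟨n, e, he, hne⟩ := lf_choice θ (L ^ 2) δ h0 h1 (by positivity) hδ
  refine ⟨e, he, ?_⟩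
  intro α β γ pα hβ hγ j hyp lV lW hV hW
  have pβ := hβ.1.1
  have pγ := hγ.1.1
  have hθ : θ ≠ 0 := h0.ne'
  obtain ⟨z, κ, μ, z0, hκ, hz1, zm, zb, zi, zz, kk, μ0, μ1, μcs, μL⟩ := l_seq L hL.le β γ hβ hγ j
  have hzB : ∀ i, Bm (z i) := fun i => ⟨zm i, 2 * L, zb i⟩
  have hκB : ∀ i, Bm (κ i) := fun i => lf_rg (hzB i) (hκ i)
  -- the differences
  obtain ⟨m, hm⟩ : ∃ m : ℕ → Eu d → ℝ, ∀ i, m i = fun x => z i x - z (i + 1) x := ⟨_, fun i => rfl⟩
  have hm' : ∀ i, m i = fun x => 1 * z i x + -1 * z (i + 1) x := by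
    intro i
    rw [hm i]
    funext x
    ring
  have hmB : ∀ i, Bm (m i) := fun i => by
    rw [hm' i]
    exact lf_comb (hzB i) (hzB (i + 1)) 1 (-1)
  have hmb : ∀ i x, |m i x| ≤ 4 * L := by
    intro i x
    rw [hm i]
    have a := zb i x
    have b := zb (i + 1) x
    rw [abs_le] at a b ⊢
    constructor <;> simp only [] <;> linarith [a.1, a.2, b.1, b.2]
  have hmi : ∀ i, ∫ x, m i x ∂γ = 0 := by
    intro i
    rw [hm i]
    show ∫ x, (z i x - z (i + 1) x) ∂γ = 0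
    rw [integral_sub (lf_int γ (hzB i)) (lf_int γ (hzB (i + 1))), zi, zi, sub_zero]
  have hex : ∀ i, ∃ ρ, Rg α γ (m i) ρ := fun i => rg_ex α γ (m i) (hmB i)
  choose ρ hρ using hex
  have hρB : ∀ i, Bm (ρ i) := fun i => lf_rg (hmB i) (hρ i)
  -- moments
  have mm : ∀ i, ∫ x, m i x ^ 2 ∂γ = μ (2 * i) - 2 * μ (2 * i + 1) + μ (2 * i + 2) := by
    intro i
    rw [hm' i]
    have := lf_sq γ (hzB i) (hzB (i + 1)) 1 (-1)
    rw [zz, zz, zz] at this
    rw [this, show i + i = 2 * i by ring, show i + (i + 1) = 2 * i + 1 by ring,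
      show i + 1 + (i + 1) = 2 * i + 2 by ring]
    ring
  have ht : ∀ i, ∫ u, ρ i u ^ 2 ∂(α.conv γ) ≤ μ (2 * i) - 2 * μ (2 * i + 1) + μ (2 * i + 2) := by
    intro i
    rw [← mm i]
    exact rg_sq α γ (m i) (ρ i) (hmB i) (hρ i)
  have hA : ∀ i, ∫ u, ρ i u ^ 2 ∂(α.conv γ) +
      (μ (2 * i + 1) - 2 * μ (2 * i + 2) + μ (2 * i + 3)) ≤
      θ * ((μ (2 * i) - 2 * μ (2 * i + 1) + μ (2 * i + 2)) +
        ((∫ u, ρ (i + 1) u ^ 2 ∂(α.conv γ)) / θ ^ 2 +
          ((μ (2 * i + 1) - 2 / θ * μ (2 * i + 2) + μ (2 * i + 3) / θ ^ 2) -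
          (μ (2 * i + 2) - 2 / θ * μ (2 * i + 3) + μ (2 * i + 4) / θ ^ 2)))) + e := by
    intro i
    obtain ⟨lam0, hl0, hl0'⟩ := rg_lin β γ (z i) (κ i) (z (i + 1)) (κ (i + 1)) (hzB i)
      (hzB (i + 1)) (hκ i) (hκ (i + 1)) 1 (-1)
    rw [← hm' i] at hl0
    obtain ⟨κW, hWi⟩ := rg_ex (α.conv β) γ (m i) (hmB i)
    have a := hyp (m i) (ρ i) lam0 κW (hmB i).1 (hmb i) (hmi i) (hρ i) hl0 hWi
    have c1 : ∫ v, lam0 v ^ 2 ∂(β.conv γ) =
        μ (2 * i + 1) - 2 * μ (2 * i + 2) + μ (2 * i + 3) := by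
      have c2 : ∫ v, lam0 v ^ 2 ∂(β.conv γ) = ∫ v, (1 * κ i v + -1 * κ (i + 1) v) ^ 2 ∂(β.conv γ) := by
        refine integral_congr_ae ?_
        filter_upwards [hl0'] with v hv
        rw [hv]
      rw [c2, lf_sq _ (hκB i) (hκB (i + 1)) 1 (-1), kk, kk, kk,
        show i + i + 1 = 2 * i + 1 by ring, show i + (i + 1) + 1 = 2 * i + 2 by ring,
        show i + 1 + (i + 1) + 1 = 2 * i + 3 by ring]
      ring
    -- the decomposition
    obtain ⟨κ₁, hk1, hk1'⟩ := rg_lin α γ (m (i + 1)) (ρ (i + 1)) (m (i + 1)) (ρ (i + 1))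
      (hmB (i + 1)) (hmB (i + 1)) (hρ (i + 1)) (hρ (i + 1)) (1 / θ) 0
    obtain ⟨lam, hl, hl'⟩ := rg_lin β γ (z i) (κ i) (z (i + 1)) (κ (i + 1)) (hzB i)
      (hzB (i + 1)) (hκ i) (hκ (i + 1)) 1 (-(1 / θ))
    have hk1B : Bm (fun x => 1 / θ * m (i + 1) x + 0 * m (i + 1) x) :=
      lf_comb (hmB (i + 1)) (hmB (i + 1)) _ _
    have hgB : Bm (fun x => 1 * z i x + -(1 / θ) * z (i + 1) x) :=
      lf_comb (hzB i) (hzB (i + 1)) _ _
    have hlB : Bm lam := lf_rg hgB hl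
    have hcB : Bm (fun v => 1 * κ i v + -(1 / θ) * κ (i + 1) v) :=
      lf_comb (hκB i) (hκB (i + 1)) _ _
    have had : ∀ᵐ x ∂γ, ad β lam x = 1 * z (i + 1) x + -(1 / θ) * z (i + 2) x := by
      filter_upwards [lf_adc β γ hlB hcB hl'] with x hx
      rw [hx, lf_ad β (hκB i) (hκB (i + 1)), ← hz1 i, ← hz1 (i + 1)]
    have hadB : Bm (ad β lam) := by
      obtain ⟨C, hC⟩ := hlB.2
      exact ⟨(ad_bm β lam hlB.1 C hC).1, C, (ad_bm β lam hlB.1 C hC).2⟩
    have hkB : Bm (fun x => (1 / θ * m (i + 1) x + 0 * m (i + 1) x) +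
        ((1 * z i x + -(1 / θ) * z (i + 1) x) - ad β lam x)) := by
      have := lf_comb hk1B (lf_comb hgB hadB 1 (-1)) 1 1
      simpa [sub_eq_add_neg] using this
    obtain ⟨kW, hkW⟩ := rg_ex (α.conv β) γ _ hkB
    have b := l_par α β γ _ _ κ₁ lam kW hk1B hgB hk1 hl hkW
    have b0 : ∫ w, kW w ^ 2 ∂((α.conv β).conv γ) = ∫ w, κW w ^ 2 ∂((α.conv β).conv γ) := by
      refine lf_congr (α.conv β) γ _ _ kW κW hkB (hmB i) hkW hWi ?_
      filter_upwards [had] with x hx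
      rw [hx, hm i, hm (i + 1)]
      ring
    have b1 : ∫ u, κ₁ u ^ 2 ∂(α.conv γ) = (∫ u, ρ (i + 1) u ^ 2 ∂(α.conv γ)) / θ ^ 2 := by
      have c2 : ∫ u, κ₁ u ^ 2 ∂(α.conv γ) = ∫ u, (1 / θ ^ 2) * ρ (i + 1) u ^ 2 ∂(α.conv γ) := by
        refine integral_congr_ae ?_
        filter_upwards [hk1'] with v hv
        rw [hv]
        ring
      rw [c2, integral_const_mul]
      ring
    have b2 : ∫ x, (1 * z i x + -(1 / θ) * z (i + 1) x) * ad β lam x ∂γ =
        μ (2 * i + 1) - 2 / θ * μ (2 * i + 2) + μ (2 * i + 3) / θ ^ 2 := by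
      have c2 : ∫ x, (1 * z i x + -(1 / θ) * z (i + 1) x) * ad β lam x ∂γ =
          ∫ x, ((z i x * z (i + 1) x + -(1 / θ) * (z i x * z (i + 2) x)) +
            (-(1 / θ) * (z (i + 1) x * z (i + 1) x) + (1 / θ ^ 2) * (z (i + 1) x * z (i + 2) x)))
              ∂γ := by
        refine integral_congr_ae ?_
        filter_upwards [had] with x hx
        rw [hx]
        ring
      have j1 := lf_int γ (lf_mul (hzB i) (hzB (i + 1)))
      have j2 := (lf_int γ (lf_mul (hzB i) (hzB (i + 2)))).const_mul (-(1 / θ))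
      have j3 := (lf_int γ (lf_mul (hzB (i + 1)) (hzB (i + 1)))).const_mul (-(1 / θ))
      have j4 := (lf_int γ (lf_mul (hzB (i + 1)) (hzB (i + 2)))).const_mul (1 / θ ^ 2)
      rw [c2, integral_add (by exact j1.add j2) (by exact j3.add j4), integral_add j1 j2,
        integral_add j3 j4]
      simp only [integral_const_mul]
      rw [zz, zz, zz, zz, show i + (i + 1) = 2 * i + 1 by ring, show i + (i + 2) = 2 * i + 2 by ring,
        show i + 1 + (i + 1) = 2 * i + 2 by ring, show i + 1 + (i + 2) = 2 * i + 3 by ring]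
      ring
    have b3 : ∫ x, ad β lam x ^ 2 ∂γ =
        μ (2 * i + 2) - 2 / θ * μ (2 * i + 3) + μ (2 * i + 4) / θ ^ 2 := by
      have c2 : ∫ x, ad β lam x ^ 2 ∂γ =
          ∫ x, (1 * z (i + 1) x + -(1 / θ) * z (i + 2) x) ^ 2 ∂γ := by
        refine integral_congr_ae ?_
        filter_upwards [had] with x hx
        rw [hx]
      rw [c2, lf_sq _ (hzB (i + 1)) (hzB (i + 2)) 1 (-(1 / θ)), zz, zz, zz,
        show i + 1 + (i + 1) = 2 * i + 2 by ring, show i + 1 + (i + 2) = 2 * i + 3 by ring,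
        show i + 2 + (i + 2) = 2 * i + 4 by ring]
      ring
    rw [b0, b1, b2, b3] at b
    rw [c1, mm i] at a
    have := mul_le_mul_of_nonneg_left b h0.le
    linarith
  have hB : ∀ i, μ (2 * i + 1) ≤ θ * μ (2 * i) + e := by
    intro i
    obtain ⟨κU, hU⟩ := rg_ex α γ (z i) (hzB i)
    obtain ⟨κW, hWi⟩ := rg_ex (α.conv β) γ (z i) (hzB i)
    have a := hyp (z i) κU (κ i) κW (zm i) (fun x => (zb i x).trans (by linarith)) (zi i) hU (hκ i)
      hWi
    have hz : Rg β γ (fun _ : Eu d => (0 : ℝ)) (fun _ => 0) :=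
      ⟨measurable_const, fun M hM u => hM u, fun h _ => by simp⟩
    have had : ∀ x, ad β (fun _ : Eu d => (0 : ℝ)) x = 0 := fun x => by
      unfold ad
      simp
    have b := l_par α β γ (z i) (fun _ => 0) κU (fun _ => 0) κW (hzB i)
      ⟨measurable_const, 0, fun x => by simp⟩ hU hz (by
        have : (fun x => z i x + ((fun _ : Eu d => (0 : ℝ)) x - ad β (fun _ => 0) x)) = z i := by
          funext x
          rw [had x]
          simp
        rw [this]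
        exact hWi)
    simp only [had, mul_zero, integral_zero, ne_eq, OfNat.ofNat_ne_zero, not_false_eq_true,
      zero_pow, sub_zero, add_zero] at b
    have e1 : ∫ x, z i x ^ 2 ∂γ = μ (2 * i) := by
      have := zz i i
      rw [show i + i = 2 * i by ring] at this
      rw [← this]
      refine integral_congr_ae (Eventually.of_forall fun x => ?_)
      simp only []
      ring
    have e2 : ∫ x, κ i x ^ 2 ∂(β.conv γ) = μ (2 * i + 1) := by
      have := kk i i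
      rw [show i + i + 1 = 2 * i + 1 by ring] at this
      rw [← this]
      refine integral_congr_ae (Eventually.of_forall fun x => ?_)
      simp only []
      ring
    rw [e1, e2] at a
    have hU0 : 0 ≤ ∫ u, κU u ^ 2 ∂(α.conv γ) := integral_nonneg fun u => sq_nonneg _
    nlinarith
  have key := l_alg θ (L ^ 2) e h0 h1 he.le (by positivity) μ
    (fun i => ∫ u, ρ i u ^ 2 ∂(α.conv γ)) μ0 μ1 μL μcs ht hA hB n
  -- the conclusion
  have hρ0 : Rg α γ (fun x => co L γ j x - ad β (κ 0) x) (ρ 0) := by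
    have h := hρ 0
    rw [hm 0, hz1 0, z0] at h
    exact h
  have hκ0 : Rg β γ (co L γ j) (κ 0) := by
    have h := hκ 0
    rw [z0] at h
    exact h
  have bes := l_bes L hL.le α β γ hβ hγ j (κ 0) (ρ 0) lW hκ0 hρ0 hW (1 / θ)
  have bb := (l_bb L hL.le β γ hβ hγ j (κ 0) lV hκ0 hV).1
  have e1 : ∫ x, co L γ j x ^ 2 ∂γ = μ 0 := by
    have := zz 0 0
    rw [z0] at this
    simp only [add_zero] at this
    rw [← this]
    refine integral_congr_ae (Eventually.of_forall fun x => ?_)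
    simp only []
    ring
  have e2 : ∫ v, κ 0 v ^ 2 ∂(β.conv γ) = μ 1 := by
    have := kk 0 0
    simp only [add_zero, zero_add] at this
    rw [← this]
    refine integral_congr_ae (Eventually.of_forall fun x => ?_)
    simp only []
    ring
  have e3 : ∫ x, (co L γ j x - ad β (κ 0) x) ^ 2 ∂γ = μ 0 - 2 * μ 1 + μ 2 := by
    have := mm 0
    rw [hm 0, hz1 0, z0] at this
    simpa using this
  rw [e1, e2] at bb
  rw [bb]
  rw [e1, e2, e3] at bes
  set q := (∫ y, co L β j y ^ 2 ∂β) - ∫ w, lW w ^ 2 ∂((α.conv γ).conv β) with hq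
  set t₀ := ∫ u, ρ 0 u ^ 2 ∂(α.conv γ) with ht₀
  have b1 : θ ^ 2 * (2 * (1 / θ) * (μ 0 - μ 1) - (1 / θ) ^ 2 * ((μ 0 - μ 1) -
      ((μ 0 - 2 * μ 1 + μ 2) - t₀))) ≤ θ ^ 2 * q := mul_le_mul_of_nonneg_left bes (by positivity)
  have b2 : θ ^ 2 * (2 * (1 / θ) * (μ 0 - μ 1) - (1 / θ) ^ 2 * ((μ 0 - μ 1) -
      ((μ 0 - 2 * μ 1 + μ 2) - t₀))) = 2 * θ * (μ 0 - μ 1) - ((μ 0 - μ 1) -
      ((μ 0 - 2 * μ 1 + μ 2) - t₀)) := by
    field_simp
  rw [b2] at b1
  have b3 : θ * (μ 0 - μ 1) ≤ θ * (θ * q + δ) := by nlinarith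
  exact le_of_mul_le_mul_left b3 h0

end Pool.Agent.LQ
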