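import Pool.Agent.Lib_helper52.LQ.Defs
import Pool.Agent.Lib_helper49.LQ.N2
import Pool.Agent.Lib_helper35.LQ.V0
import Pool.Agent.Lib_helper54.LQ.V1
import Pool.Agent.Lib_helper1.LQ.VA
import Pool.Agent.Lib_helper89.LQ.EN
import Pool.Agent.Lib_helper67.LQ.US
import Pool.Agent.Lib_helper58.LQ.LB

set_option autoImplicit false

namespace Pool.Agent.LQ

open MeasureTheory ENNReal Set Filter Topology Pool.Agent.EPS Pool.Agent.YG

variable {d : ℕ}

/-- the tilts of a law in the cube stay in the class -/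
theorem mn_sp (L : ℝ) (hL : 0 < L) (β : Measure (Eu d)) (hβ : Sp L β) (j : Fin d) (s : ℝ)
    (hs : 0 < s) (hsL : s * (2 * L) ≤ 1 / 2) :
    Sp L (tl β (fun y => 1 + s * co L β j y)) ∧ Sp L (tl β (fun y => 1 - s * co L β j y)) := by
  have := hβ.1.1
  obtain ⟨c1, c2, c3, -⟩ := co_bd L hL.le β j
  obtain ⟨t1, t2, t3, t4, t5, t6⟩ := tl_pm β (co L β j) c1 (2 * L) s c2 hs.le hsL c3
  exact ⟨tl_sp hβ _ ((c1.const_mul s).const_add 1) t1 2 t3 t5,
    tl_sp hβ _ ((c1.const_mul s).const_sub 1) t2 2 t4 t6⟩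

theorem mn_key (θ L : ℝ) (h0 : 0 < θ) (h1 : θ < 1) (hL : 0 < L) (α : Measure (Eu d))
    (hα : Nc α) (κ : ℝ) (hκ : 0 < κ) (β₀ : Measure (Eu d)) (hβ₀ : Sp L β₀) :
    d / 2 * Real.binEntropy θ ≤ VV θ L α β₀ + κ * ∑ j, va β₀ j := by
  set G : ℝ := d / 2 * Real.binEntropy θ with hG
  set Ψ : Measure (Eu d) → ℝ := fun β => VV θ L α β + κ * ∑ j, va β j with hΨ
  set S : Set ℝ := {s | ∃ β : Measure (Eu d), Sp L β ∧ s = Ψ β} with hS
  have hVn : ∀ β : Measure (Eu d), Sp L β → 0 ≤ VV θ L α β := fun β hβ =>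
    (vv_near θ L 1 h0 h1 hL one_pos α β hα hβ.1).1
  have hvn : ∀ β : Measure (Eu d), Sp L β → ∀ j, 0 ≤ va β j := fun β hβ j =>
    (va_nn L hL β hβ j).1
  have hbd : BddBelow S := by
    refine ⟨0, ?_⟩
    rintro s ⟨β, hβ, rfl⟩
    exact add_nonneg (hVn β hβ) (mul_nonneg hκ.le (Finset.sum_nonneg fun j _ => hvn β hβ j))
  have hle : ∀ β : Measure (Eu d), Sp L β → sInf S ≤ Ψ β := fun β hβ => csInf_le hbd ⟨β, hβ, rfl⟩
  have hne : S.Nonempty := ⟨_, β₀, hβ₀, rfl⟩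
  refine le_trans ?_ (hle β₀ hβ₀)
  by_contra hcon
  push Not at hcon
  set m := sInf S with hm
  set δ : ℝ := G - m with hδ
  have hδ0 : 0 < δ := by rw [hδ]; linarith
  obtain ⟨r, hr, hus⟩ := usc α hα L (δ / 4) hL (by positivity)
  set ρ : ℝ := r / (d + 1) with hρ
  have hρ0 : 0 < ρ := by rw [hρ]; positivity
  set C : ℝ := (2 * L) ^ 4 with hC
  have hC0 : 0 < C := by rw [hC]; positivity
  set s : ℝ := min (1 / (4 * L)) (Real.sqrt (κ * ρ ^ 2 / C)) with hs
  have hs0 : 0 < s := lt_min (by positivity) (Real.sqrt_pos.2 (by positivity))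
  have hsL : s * (2 * L) ≤ 1 / 2 := by
    have h : s ≤ 1 / (4 * L) := min_le_left _ _
    have h' : s * (2 * L) ≤ 1 / (4 * L) * (2 * L) := mul_le_mul_of_nonneg_right h (by positivity)
    have e : 1 / (4 * L) * (2 * L) = 1 / 2 := by
      field_simp
      norm_num
    rw [e] at h'
    exact h'
  have hsC : s ^ 2 * C ≤ κ * ρ ^ 2 := by
    have h : s ≤ Real.sqrt (κ * ρ ^ 2 / C) := min_le_right _ _
    have h2 : s ^ 2 ≤ κ * ρ ^ 2 / C := by
      have := pow_le_pow_left₀ hs0.le h 2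
      rwa [Real.sq_sqrt (by positivity)] at this
    rwa [le_div_iff₀ hC0] at h2
  set η : ℝ := min (δ / 2) (κ * s ^ 2 * ρ ^ 2 / 2) with hη
  have hη0 : 0 < η := lt_min (by positivity) (by positivity)
  obtain ⟨x, ⟨β, hβ, rfl⟩, hx⟩ := exists_lt_of_csInf_lt hne (show sInf S < m + η by linarith)
  have hva : ∀ j, va β j ≤ ρ := by
    intro j
    obtain ⟨p1, p2⟩ := mn_sp L hL β hβ j s hs0 hsL
    have a1 := hle _ p1
    have a2 := hle _ p2
    have st := v_step θ L h0 h1 hL α β hα hβ j s hs0 hsL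
    obtain ⟨v1, v2⟩ := va_tl L hL β hβ j s hs0 hsL
    have hsum : ∑ i, va (tl β (fun y => 1 + s * co L β j y)) i +
        ∑ i, va (tl β (fun y => 1 - s * co L β j y)) i ≤
        2 * ∑ i, va β i - 2 * s ^ 2 * va β j ^ 2 := by
      rw [← Finset.sum_add_distrib, Finset.mul_sum, ← Finset.add_sum_erase _ _ (Finset.mem_univ j),
        ← Finset.add_sum_erase Finset.univ (fun i => 2 * va β i) (Finset.mem_univ j)]
      have : ∑ i ∈ Finset.univ.erase j, (va (tl β (fun y => 1 + s * co L β j y)) i +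
          va (tl β (fun y => 1 - s * co L β j y)) i) ≤
          ∑ i ∈ Finset.univ.erase j, 2 * va β i := Finset.sum_le_sum fun i _ => v1 i
      linarith
    have h5 := mul_le_mul_of_nonneg_left hsum hκ.le
    have h6 : 2 * κ * s ^ 2 * va β j ^ 2 ≤ 2 * η + s ^ 4 * C := by
      simp only [hΨ] at a1 a2 hx
      nlinarith
    have h7 : s ^ 4 * C ≤ s ^ 2 * (κ * ρ ^ 2) := by
      have := mul_le_mul_of_nonneg_left hsC (by positivity : 0 ≤ s ^ 2)
      calc s ^ 4 * C = s ^ 2 * (s ^ 2 * C) := by ring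
        _ ≤ _ := this
    have h8 : η ≤ κ * s ^ 2 * ρ ^ 2 / 2 := min_le_right _ _
    have h9 : 2 * κ * s ^ 2 * va β j ^ 2 ≤ 2 * κ * s ^ 2 * ρ ^ 2 := by nlinarith
    have h10 : va β j ^ 2 ≤ ρ ^ 2 := le_of_mul_le_mul_left h9 (by positivity)
    exact le_of_sq_le_sq h10 hρ0.le
  have hsum : ∑ j, va β j ≤ r := by
    calc ∑ j, va β j ≤ ∑ _j : Fin d, ρ := Finset.sum_le_sum fun j _ => hva j
      _ = d * ρ := by simp
      _ ≤ r := by
        rw [hρ]
        have : (d : ℝ) * (r / (d + 1)) = r * (d / (d + 1)) := by ring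
        rw [this]
        have h : (d : ℝ) / (d + 1) ≤ 1 := by
          rw [div_le_one (by positivity)]
          linarith
        calc r * (d / (d + 1)) ≤ r * 1 := mul_le_mul_of_nonneg_left h hr.le
          _ = r := mul_one r
  have u := hus β hβ hsum
  have e := v_end θ L h0 h1 hL α β hα hβ
  have hη1 : η ≤ δ / 2 := min_le_left _ _
  have hs2 : 0 ≤ κ * ∑ j, va β j := mul_nonneg hκ.le (Finset.sum_nonneg fun j _ => hvn β hβ j)
  have u2 : θ * (ent (α.conv β) - ent α) ≤ δ / 4 := by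
    have h : ent (α.conv β) - ent α ≤ δ / 4 := by linarith
    calc θ * (ent (α.conv β) - ent α) ≤ θ * (δ / 4) := mul_le_mul_of_nonneg_left h h0.le
      _ ≤ 1 * (δ / 4) := mul_le_mul_of_nonneg_right h1.le (by positivity)
      _ = δ / 4 := one_mul _
  simp only [hΨ] at hx
  have hG' : G = m + δ := by rw [hδ]; ring
  rw [← hG] at e
  linarith

theorem v_ge (θ L : ℝ) (h0 : 0 < θ) (h1 : θ < 1) (hL : 0 < L) (α β : Measure (Eu d))
    (hα : Nc α) (hβ : Sp L β) : d / 2 * Real.binEntropy θ ≤ VV θ L α β := by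
  by_contra hcon
  push Not at hcon
  set D : ℝ := d / 2 * Real.binEntropy θ - VV θ L α β with hD
  have hD0 : 0 < D := by rw [hD]; linarith
  have hs : 0 ≤ ∑ j, va β j := Finset.sum_nonneg fun j _ => (va_nn L hL β hβ j).1
  have hκ : 0 < D / (2 * (∑ j, va β j + 1)) := by positivity
  have h := mn_key θ L h0 h1 hL α hα _ hκ β hβ
  have h2 : D / (2 * (∑ j, va β j + 1)) * ∑ j, va β j ≤ D / 2 := by
    have e : D / (2 * (∑ j, va β j + 1)) * ∑ j, va β j =
        D / 2 * ((∑ j, va β j) / (∑ j, va β j + 1)) := by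
      field_simp
    rw [e]
    have : (∑ j, va β j) / (∑ j, va β j + 1) ≤ 1 := by
      rw [div_le_one (by positivity)]
      linarith
    calc D / 2 * ((∑ j, va β j) / (∑ j, va β j + 1)) ≤ D / 2 * 1 :=
          mul_le_mul_of_nonneg_left this (by positivity)
      _ = D / 2 := mul_one _
  linarith

theorem ss_nc (θ : ℝ) (h0 : 0 < θ) (h1 : θ < 1) (α β γ : Measure (Eu d)) (hα : Nc α)
    (hβ : Nc β) (hγ : Nc γ) : d / 2 * Real.binEntropy θ ≤ SS θ α β γ := by
  obtain ⟨R₁, hR₁⟩ := hβ.2.1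
  obtain ⟨R₂, hR₂⟩ := hγ.2.1
  set L : ℝ := max 1 (max R₁ R₂) with hL
  have hL0 : 0 < L := lt_of_lt_of_le one_pos (le_max_left _ _)
  have sβ : Sp L β := by
    refine ⟨hβ, ?_⟩
    filter_upwards [hR₁] with x hx j
    have h : ‖x j‖ ≤ ‖x‖ := PiLp.norm_apply_le x j
    rw [Real.norm_eq_abs] at h
    exact h.trans (hx.trans ((le_max_left _ _).trans (le_max_right _ _)))
  have sγ : Sp L γ := by
    refine ⟨hγ, ?_⟩
    filter_upwards [hR₂] with x hx j
    have h : ‖x j‖ ≤ ‖x‖ := PiLp.norm_apply_le x j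
    rw [Real.norm_eq_abs] at h
    exact h.trans (hx.trans ((le_max_right _ _).trans (le_max_right _ _)))
  exact (v_ge θ L h0 h1 hL0 α β hα sβ).trans (vv_le θ L h0 h1 α β γ hα hβ sγ)

end Pool.Agent.LQ
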