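import Pool.Agent.Lib_helper52.LQ.Defs
import Pool.Agent.Lib_helper53.LQ.N1
import Pool.Agent.Lib_helper52.LQ.P.MN
import Pool.Agent.Lib_helper27.LQ.LM
import Pool.Agent.Lib_helper27.LQ.TR
import Pool.Agent.Lib_helper52.EPS.P.RES

set_option autoImplicit false

namespace Pool.Agent.LQ

open MeasureTheory ENNReal Set Filter Topology Pool.Agent.EPS Pool.Agent.YG

variable {d : ℕ}

/-- the general case by `trunc_nc` for the three laws, `conv_le` and `lim_ent` (six times) -/
theorem ss_gen (θ : ℝ) (h0 : 0 < θ) (h1 : θ < 1) (α β γ : Measure (Eu d))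
    [IsProbabilityMeasure α] [IsProbabilityMeasure β] [IsProbabilityMeasure γ] (hα : FinE α)
    (hβ : FinE β) (hγ : FinE γ) (hU : FinE (α.conv γ)) (hV : FinE (β.conv γ))
    (hW : FinE ((α.conv β).conv γ)) : d / 2 * Real.binEntropy θ ≤ SS θ α β γ := by
  obtain ⟨a, ca, a1, a2, a3⟩ := trunc_nc α hα.1
  obtain ⟨b, cb, b1, b2, b3⟩ := trunc_nc β hβ.1
  obtain ⟨c, cc, c1, c2, c3⟩ := trunc_nc γ hγ.1
  have pa : ∀ n, IsProbabilityMeasure (a n) := fun n => (a1 n).1
  have pb : ∀ n, IsProbabilityMeasure (b n) := fun n => (b1 n).1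
  have pc : ∀ n, IsProbabilityMeasure (c n) := fun n => (c1 n).1
  have key : ∀ n, d / 2 * Real.binEntropy θ ≤ SS θ (a n) (b n) (c n) := fun n =>
    ss_nc θ h0 h1 (a n) (b n) (c n) (a1 n) (b1 n) (c1 n)
  have pAC : ∀ n, IsProbabilityMeasure ((a n).conv (c n)) := fun n => inferInstance
  have pBC : ∀ n, IsProbabilityMeasure ((b n).conv (c n)) := fun n => inferInstance
  have pAB : ∀ n, IsProbabilityMeasure ((a n).conv (b n)) := fun n => inferInstance
  have pABC : ∀ n, IsProbabilityMeasure (((a n).conv (b n)).conv (c n)) := fun n => inferInstance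
  have eAC : ∀ n, (a n).conv (c n) ≤ ((ca n * cc n : NNReal) : ℝ≥0∞) • (α.conv γ) := fun n =>
    conv_le α (a n) γ (c n) (ca n) (cc n) (a3 n) (c3 n)
  have eBC : ∀ n, (b n).conv (c n) ≤ ((cb n * cc n : NNReal) : ℝ≥0∞) • (β.conv γ) := fun n =>
    conv_le β (b n) γ (c n) (cb n) (cc n) (b3 n) (c3 n)
  have eAB : ∀ n, (a n).conv (b n) ≤ ((ca n * cb n : NNReal) : ℝ≥0∞) • (α.conv β) := fun n =>
    conv_le α (a n) β (b n) (ca n) (cb n) (a3 n) (b3 n)
  have eABC : ∀ n, ((a n).conv (b n)).conv (c n) ≤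
      ((ca n * cb n * cc n : NNReal) : ℝ≥0∞) • ((α.conv β).conv γ) := fun n =>
    conv_le (α.conv β) ((a n).conv (b n)) γ (c n) (ca n * cb n) (cc n) (eAB n) (c3 n)
  have tAC : Tendsto (fun n => ((ca n * cc n : NNReal) : ℝ)) atTop (𝓝 1) := by
    have := a2.mul c2
    rw [one_mul] at this
    simpa using this
  have tBC : Tendsto (fun n => ((cb n * cc n : NNReal) : ℝ)) atTop (𝓝 1) := by
    have := b2.mul c2
    rw [one_mul] at this
    simpa using this
  have tABC : Tendsto (fun n => ((ca n * cb n * cc n : NNReal) : ℝ)) atTop (𝓝 1) := by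
    have := (a2.mul b2).mul c2
    rw [one_mul, one_mul] at this
    simpa using this
  have l1 := lim_ent α hα a pa ca a2 a3
  have l2 := lim_ent β hβ b pb cb b2 b3
  have l3 := lim_ent γ hγ c pc cc c2 c3
  have l4 := lim_ent (α.conv γ) hU (fun n => (a n).conv (c n)) pAC (fun n => ca n * cc n) tAC eAC
  have l5 := lim_ent (β.conv γ) hV (fun n => (b n).conv (c n)) pBC (fun n => cb n * cc n) tBC eBC
  have l6 := lim_ent ((α.conv β).conv γ) hW (fun n => ((a n).conv (b n)).conv (c n)) pABC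
    (fun n => ca n * cb n * cc n) tABC eABC
  have lim : Tendsto (fun n => SS θ (a n) (b n) (c n)) atTop (𝓝 (SS θ α β γ)) := by
    unfold SS
    exact ((l4.add l5).sub ((l6.add l3).const_mul θ)).sub ((l1.add l2).const_mul (1 - θ))
  exact ge_of_tendsto' lim key

end Pool.Agent.LQ
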